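import Pool.Agent.R806.CR.Main

/-!
# The `f`-vector of the order polytope of the crown poset is log-concave
-/

set_option autoImplicit false

namespace Pool.Agent.Results.MP_00f856_co.CrownLogConcave

/-- The ground set of the crown poset `C_{2n}`: the pair `(j, false)` is the element `2j - 1` and
the pair `(j, true)` is the element `2j` of `{1, …, 2n}`, where `j` is read modulo `n`. -/
def Crown (n : ℕ) : Type := ZMod n × Bool

/-- the index `j`, modulo `n` -/
def Crown.idx {n : ℕ} (a : Crown n) : ZMod n := Prod.fst a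

/-- `false` for the odd (minimal) elements, `true` for the even (maximal) elements -/
def Crown.even {n : ℕ} (a : Crown n) : Bool := Prod.snd a

/-- The order of the crown poset: `a ≤ b` iff `a = b`, or `a` is odd, `b` is even, and
`a = 2j - 1` or `a = 2j + 1` where `b = 2j` (the element `2n + 1` is read as `1`). -/
instance (n : ℕ) : PartialOrder (Crown n) where
  le a b := a = b ∨ (a.even = false ∧ b.even = true ∧ (a.idx = b.idx ∨ a.idx = b.idx + 1))
  le_refl a := Or.inl rfl
  le_trans a b c := by
    rintro (rfl | ⟨h1, h2, h3⟩) (rfl | ⟨h4, h5, h6⟩)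
    · exact Or.inl rfl
    · exact Or.inr ⟨h4, h5, h6⟩
    · exact Or.inr ⟨h1, h2, h3⟩
    · rw [h2] at h4; cases h4
  le_antisymm a b := by
    rintro (rfl | ⟨h1, h2, h3⟩) (h | ⟨h4, h5, h6⟩)
    · rfl
    · rfl
    · exact h.symm
    · rw [h2] at h4; cases h4

/-- The order polytope of a poset `P`: all `x ∈ [0,1]^P` with `x_a ≤ x_b` whenever `a ≤ b`. -/
def orderPolytope (P : Type*) [PartialOrder P] : Set (P → ℝ) :=
  {x | (∀ a, 0 ≤ x a ∧ x a ≤ 1) ∧ ∀ a b, a ≤ b → x a ≤ x b}

/-- The `f`-vector of a polytope `K`, with index shifted by one: `fVec K 0 = f₋₁ = 1` (the empty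
face), and `fVec K (i + 1) = fᵢ` is the number of `i`-dimensional faces of `K`. The nonempty faces
are the nonempty exposed subsets, i.e. the sets of maximisers over `K` of a linear functional
(`K` itself included), and the dimension of a face is the dimension of its affine hull. -/
noncomputable def fVec {V : Type*} [AddCommGroup V] [Module ℝ V] [TopologicalSpace V] (K : Set V) :
    ℕ → ℕ
  | 0 => 1
  | (i + 1) => Set.ncard {F : Set V | F.Nonempty ∧ IsExposed ℝ K F ∧
      Module.finrank ℝ (vectorSpan ℝ F) = i}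

/-- For every `n ≥ 1`, the `f`-vector of the order polytope of the crown poset `C_{2n}` is
log-concave: its entries `f₋₁, f₀, …, f_{2n}` are positive (and there are no faces of larger
dimension), and `fᵢ₋₁ fᵢ₊₁ ≤ fᵢ²` for all `i ≥ 0`. -/
theorem result (n : ℕ) (hn : 1 ≤ n) :
    (∀ i, 0 < fVec (orderPolytope (Crown n)) i ↔ i ≤ 2 * n + 1) ∧
    (∀ i, fVec (orderPolytope (Crown n)) i * fVec (orderPolytope (Crown n)) (i + 2) ≤
      fVec (orderPolytope (Crown n)) (i + 1) ^ 2) := by
  have : NeZero n := ⟨by omega⟩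
  have hK : orderPolytope (Crown n) = {x : ZMod n × Bool → ℝ | Pool.Agent.R806.CRG.InC x} := by
    ext x
    constructor
    · rintro ⟨h1, h2⟩
      refine ⟨fun p => (h1 p).1, fun p => (h1 p).2, fun p => h2 _ _ ?_⟩
      rcases p with ⟨i, b⟩
      cases b
      · exact Or.inr ⟨rfl, rfl, Or.inr (sub_add_cancel i 1).symm⟩
      · exact Or.inr ⟨rfl, rfl, Or.inl rfl⟩
    · intro h
      refine ⟨fun a => ⟨h.lo a, h.hi a⟩, ?_⟩
      rintro ⟨i, b⟩ ⟨j, c⟩ (hab | ⟨h1, h2, h3⟩)
      · rw [hab]
      · have h1' : b = false := h1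
        have h2' : c = true := h2
        subst h1' h2'
        rcases h3 with h3 | h3
        · have h3' : i = j := h3
          subst h3'
          exact h.st (i, true)
        · have h3' : i = j + 1 := h3
          have h4 := h.st (i, false)
          have e1 : i - 1 = j := by rw [h3']; ring
          simp only [Pool.Agent.R916.OP.sm, Pool.Agent.R916.OP.la, e1] at h4
          exact h4
  have ak : ∀ k, (fVec (orderPolytope (Crown n)) (k + 1) : ℝ) =
      (Pool.Agent.R806.CRG.QQ n).coeff k := by
    intro k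
    rw [← Pool.Agent.R806.CRG.ncard_faces2, hK]
    rfl
  exact ⟨Pool.Agent.R806.CR.pos_iff_nat _ rfl ak, Pool.Agent.R806.CR.lc_nat _ rfl ak⟩

end Pool.Agent.Results.MP_00f856_co.CrownLogConcave
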